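import Mathlib

set_option autoImplicit false

/-!
A construction of Jordan algebras `F ⊕ V ⊕ Z ⊕ Y` from a symmetric bilinear form on `V` and
bilinear maps `V × Z → Y`, `V × Y → Z`, `Y × Y → Z`.
-/

namespace Pool.Agent.MP_75529e_al

universe u

/-- The data of the construction. -/
structure Dat (F V Z Y : Type u) [Field F] [AddCommGroup V] [Module F V] [AddCommGroup Z]
    [Module F Z] [AddCommGroup Y] [Module F Y] where
  dot : V →ₗ[F] V →ₗ[F] F
  w : V →ₗ[F] Z →ₗ[F] Y
  c : V →ₗ[F] Y →ₗ[F] Z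
  m : Y →ₗ[F] Y →ₗ[F] Z
  dot_comm : ∀ v u, dot v u = dot u v
  m_comm : ∀ x y, m x y = m y x
  h1 : ∀ v u z, w v (c u (w v z)) = dot v u • w v z
  h2 : ∀ v u y, c v (w u (c v y)) = dot v u • c v y
  h3 : ∀ v u z, m (w v z) (w u z) = 0
  h4 : ∀ v u y, c v (w u (m y y)) = dot v u • m y y - (2 : F) • m (w u (c v y)) y
  h5 : ∀ u y, m (w u (m y y)) y = 0
  h6 : ∀ v z z', m (w v z) (w v z') = 0
  h7 : ∀ v z y, w v (m (w v z) y) = 0

variable {F V Z Y : Type u} [Field F] [AddCommGroup V] [Module F V] [AddCommGroup Z]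
    [Module F Z] [AddCommGroup Y] [Module F Y]

/-- The underlying space of the algebra. -/
def JJ (_ : Dat F V Z Y) : Type u := F × V × Z × Y

namespace JJ

variable (D : Dat F V Z Y)

instance : AddCommGroup (JJ D) := inferInstanceAs (AddCommGroup (F × V × Z × Y))
instance : Module F (JJ D) := inferInstanceAs (Module F (F × V × Z × Y))

variable {D}

/-- The element with given components. -/
def mk (a : F) (v : V) (z : Z) (y : Y) : JJ D := (a, v, z, y)

def a (x : JJ D) : F := x.1
def v (x : JJ D) : V := x.2.1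
def z (x : JJ D) : Z := x.2.2.1
def y (x : JJ D) : Y := x.2.2.2

@[ext] theorem ext' {p q : JJ D} (ha : p.a = q.a) (hv : p.v = q.v) (hz : p.z = q.z)
    (hy : p.y = q.y) : p = q := Prod.ext ha (Prod.ext hv (Prod.ext hz hy))

@[simp] theorem mk_a (a : F) (v : V) (z : Z) (y : Y) : (mk a v z y : JJ D).a = a := rfl
@[simp] theorem mk_v (a : F) (v : V) (z : Z) (y : Y) : (mk a v z y : JJ D).v = v := rfl
@[simp] theorem mk_z (a : F) (v : V) (z : Z) (y : Y) : (mk a v z y : JJ D).z = z := rfl
@[simp] theorem mk_y (a : F) (v : V) (z : Z) (y : Y) : (mk a v z y : JJ D).y = y := rfl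
@[simp] theorem add_a (p q : JJ D) : (p + q).a = p.a + q.a := rfl
@[simp] theorem add_v (p q : JJ D) : (p + q).v = p.v + q.v := rfl
@[simp] theorem add_z (p q : JJ D) : (p + q).z = p.z + q.z := rfl
@[simp] theorem add_y (p q : JJ D) : (p + q).y = p.y + q.y := rfl
@[simp] theorem neg_a (p : JJ D) : (-p).a = -p.a := rfl
@[simp] theorem neg_v (p : JJ D) : (-p).v = -p.v := rfl
@[simp] theorem neg_z (p : JJ D) : (-p).z = -p.z := rfl
@[simp] theorem neg_y (p : JJ D) : (-p).y = -p.y := rfl
@[simp] theorem zero_a : (0 : JJ D).a = 0 := rfl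
@[simp] theorem zero_v : (0 : JJ D).v = 0 := rfl
@[simp] theorem zero_z : (0 : JJ D).z = 0 := rfl
@[simp] theorem zero_y : (0 : JJ D).y = 0 := rfl
@[simp] theorem smul_a (r : F) (p : JJ D) : (r • p).a = r * p.a := rfl
@[simp] theorem smul_v (r : F) (p : JJ D) : (r • p).v = r • p.v := rfl
@[simp] theorem smul_z (r : F) (p : JJ D) : (r • p).z = r • p.z := rfl
@[simp] theorem smul_y (r : F) (p : JJ D) : (r • p).y = r • p.y := rfl

instance : Mul (JJ D) := ⟨fun p q => mk (p.a * q.a + D.dot p.v q.v) (p.a • q.v + q.a • p.v)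
  (p.a • q.z + q.a • p.z + D.c p.v q.y + D.c q.v p.y + D.m p.y q.y)
  (p.a • q.y + q.a • p.y + D.w p.v q.z + D.w q.v p.z)⟩

@[simp] theorem mul_a (p q : JJ D) : (p * q).a = p.a * q.a + D.dot p.v q.v := rfl
@[simp] theorem mul_v (p q : JJ D) : (p * q).v = p.a • q.v + q.a • p.v := rfl
@[simp] theorem mul_z (p q : JJ D) : (p * q).z =
  p.a • q.z + q.a • p.z + D.c p.v q.y + D.c q.v p.y + D.m p.y q.y := rfl
@[simp] theorem mul_y (p q : JJ D) : (p * q).y =
  p.a • q.y + q.a • p.y + D.w p.v q.z + D.w q.v p.z := rfl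

theorem mul_comm' (p q : JJ D) : p * q = q * p := by
  ext1
  · simp only [mul_a]; rw [D.dot_comm, mul_comm]
  · simp only [mul_v]; rw [add_comm]
  · simp only [mul_z]; rw [D.m_comm p.y q.y]; abel
  · simp only [mul_y]; abel

theorem mul_add' (p q r : JJ D) : p * (q + r) = p * q + p * r := by
  ext1
  · simp only [mul_a, add_a, add_v, map_add]; ring
  · simp only [mul_v, add_a, add_v]; module
  · simp only [mul_z, add_z, add_a, add_v, add_y, map_add, LinearMap.add_apply]; module
  · simp only [mul_y, add_z, add_a, add_v, add_y, map_add, LinearMap.add_apply]; module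

instance : NonUnitalNonAssocCommRing (JJ D) where
  left_distrib p q r := mul_add' p q r
  right_distrib p q r := by rw [mul_comm', mul_add', mul_comm' r p, mul_comm' r q]
  zero_mul p := by
    have h := mul_add' p 0 0
    rw [add_zero, left_eq_add] at h
    rw [mul_comm', h]
  mul_zero p := by
    have h := mul_add' p 0 0
    rwa [add_zero, left_eq_add] at h
  mul_comm := mul_comm'

theorem smul_mul' (r : F) (p q : JJ D) : (r • p) * q = r • (p * q) := by
  ext1
  · simp only [mul_a, smul_a, smul_v, map_smul, LinearMap.smul_apply, smul_eq_mul]; ring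
  · simp only [mul_v, smul_a, smul_v]; module
  · simp only [mul_z, smul_a, smul_v, smul_z, smul_y, map_smul, LinearMap.smul_apply]; module
  · simp only [mul_y, smul_a, smul_v, smul_z, smul_y, map_smul, LinearMap.smul_apply]; module

instance : IsScalarTower F (JJ D) (JJ D) := ⟨fun r p q => smul_mul' r p q⟩

instance : SMulCommClass F (JJ D) (JJ D) := ⟨fun r p q => by
  show r • (p * q) = p * (r • q)
  rw [mul_comm p (r • q), smul_mul', mul_comm p q]⟩

theorem one_mul' (p : JJ D) : (mk 1 0 0 0 : JJ D) * p = p := by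
  ext1 <;> simp

/-- The Jordan identity. -/
theorem jordan (p q : JJ D) : ((p * p) * q) * p = (p * p) * (q * p) := by
  ext1
  · simp only [mul_a, mul_v, map_add, map_smul, LinearMap.add_apply, LinearMap.smul_apply,
      smul_eq_mul]
    rw [D.dot_comm q.v p.v]
    ring
  · simp only [mul_a, mul_v, map_add, map_smul, LinearMap.add_apply, LinearMap.smul_apply,
      smul_eq_mul]
    rw [D.dot_comm q.v p.v]
    module
  · simp only [mul_a, mul_v, mul_z, mul_y, map_add, map_smul, LinearMap.add_apply,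
      LinearMap.smul_apply, smul_eq_mul, D.h2, D.h3, D.h4, D.h5, D.h6,
      D.dot_comm q.v p.v, D.m_comm q.y p.y, D.m_comm p.y (D.w q.v p.z),
      D.m_comm p.y (D.w p.v q.z)]
    module
  · simp only [mul_a, mul_v, mul_z, mul_y, map_add, map_smul, LinearMap.add_apply,
      LinearMap.smul_apply, smul_eq_mul, D.h1, D.h7, D.dot_comm q.v p.v, D.m_comm q.y p.y]
    module

end JJ

end Pool.Agent.MP_75529e_al
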