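import Mathlib

set_option autoImplicit false

namespace Pool.Agent.MP_75529e_al.CharTwo

/-- `R` (a not necessarily associative ring) is semiprime: it has no nonzero two-sided ideal `K`
(an additive subgroup absorbing products with elements of `R` on both sides) all of whose
products `a * b` with `a, b ∈ K` vanish, i.e. with `K ^ 2 = 0`. -/
def IsSemiprimeRing (R : Type) [NonUnitalNonAssocRing R] : Prop :=
  ∀ K : AddSubgroup R, (∀ r : R, ∀ k ∈ K, r * k ∈ K ∧ k * r ∈ K) →
    (∀ a ∈ K, ∀ b ∈ K, a * b = 0) → K = ⊥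

/-- The underlying type of the example: triples `(a, b, c)` standing for
`a + b t + c ∂` with `a, b` in the cross product Lie algebra over `ZMod 2`. -/
structure LL where
  a : Fin 3 → ZMod 2
  b : Fin 3 → ZMod 2
  c : ZMod 2
deriving DecidableEq

namespace LL

/-- Cross product over `ZMod 2`. -/
def cr (u v : Fin 3 → ZMod 2) : Fin 3 → ZMod 2 :=
  ![u 1 * v 2 + u 2 * v 1, u 2 * v 0 + u 0 * v 2, u 0 * v 1 + u 1 * v 0]

@[ext] theorem ext' {x y : LL} (h1 : x.a = y.a) (h2 : x.b = y.b) (h3 : x.c = y.c) : x = y := by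
  cases x; cases y; simp_all

instance : Zero LL := ⟨⟨0, 0, 0⟩⟩
instance : Add LL := ⟨fun x y => ⟨x.a + y.a, x.b + y.b, x.c + y.c⟩⟩
instance : Neg LL := ⟨fun x => ⟨-x.a, -x.b, -x.c⟩⟩
instance : Sub LL := ⟨fun x y => ⟨x.a - y.a, x.b - y.b, x.c - y.c⟩⟩
instance : Mul LL := ⟨fun x y =>
  ⟨cr x.a y.a + (x.c • y.b + y.c • x.b), cr x.a y.b + cr x.b y.a, 0⟩⟩
instance : SMul ℕ LL := ⟨fun n x => ⟨n • x.a, n • x.b, n • x.c⟩⟩
instance : SMul ℤ LL := ⟨fun n x => ⟨n • x.a, n • x.b, n • x.c⟩⟩

theorem zero_a : (0 : LL).a = 0 := rfl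
theorem zero_b : (0 : LL).b = 0 := rfl
theorem zero_c : (0 : LL).c = 0 := rfl
theorem add_a (x y : LL) : (x + y).a = x.a + y.a := rfl
theorem add_b (x y : LL) : (x + y).b = x.b + y.b := rfl
theorem add_c (x y : LL) : (x + y).c = x.c + y.c := rfl
theorem mul_a (x y : LL) : (x * y).a = cr x.a y.a + (x.c • y.b + y.c • x.b) := rfl
theorem mul_b (x y : LL) : (x * y).b = cr x.a y.b + cr x.b y.a := rfl
theorem mul_c (x y : LL) : (x * y).c = 0 := rfl

theorem cr_add (u v w : Fin 3 → ZMod 2) : cr u (v + w) = cr u v + cr u w := by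
  ext i; fin_cases i <;> simp [cr] <;> ring

theorem add_cr (u v w : Fin 3 → ZMod 2) : cr (u + v) w = cr u w + cr v w := by
  ext i; fin_cases i <;> simp [cr] <;> ring

theorem cr_comm (u v : Fin 3 → ZMod 2) : cr u v = cr v u := by
  ext i; fin_cases i <;> simp [cr] <;> ring

theorem cr_zero (u : Fin 3 → ZMod 2) : cr u 0 = 0 := by
  ext i; fin_cases i <;> simp [cr]

theorem zero_cr (u : Fin 3 → ZMod 2) : cr 0 u = 0 := by
  ext i; fin_cases i <;> simp [cr]

theorem cr_self (u : Fin 3 → ZMod 2) : cr u u = 0 := by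
  have h : ∀ x : ZMod 2, x + x = 0 := by decide
  ext i; fin_cases i
  · simp only [cr]; simpa [mul_comm] using h (u 1 * u 2)
  · simp only [cr]; simpa [mul_comm] using h (u 0 * u 2)
  · simp only [cr]; simpa [mul_comm] using h (u 0 * u 1)

instance : AddCommGroup LL where
  add_assoc x y z := by ext1 <;> simp [add_a, add_b, add_c, add_assoc]
  zero_add x := by ext1 <;> simp [add_a, add_b, add_c, zero_a, zero_b, zero_c]
  add_zero x := by ext1 <;> simp [add_a, add_b, add_c, zero_a, zero_b, zero_c]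
  add_comm x y := by ext1 <;> simp [add_a, add_b, add_c, add_comm]
  neg_add_cancel x := by
    ext1
    · show -x.a + x.a = 0; exact neg_add_cancel _
    · show -x.b + x.b = 0; exact neg_add_cancel _
    · show -x.c + x.c = 0; exact neg_add_cancel _
  sub_eq_add_neg x y := by
    ext1
    · show x.a - y.a = x.a + -y.a; exact sub_eq_add_neg _ _
    · show x.b - y.b = x.b + -y.b; exact sub_eq_add_neg _ _
    · show x.c - y.c = x.c + -y.c; exact sub_eq_add_neg _ _
  nsmul := fun n x => n • x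
  nsmul_zero x := by
    ext1
    · show (0 : ℕ) • x.a = 0; simp
    · show (0 : ℕ) • x.b = 0; simp
    · show (0 : ℕ) • x.c = 0; simp
  nsmul_succ n x := by
    ext1
    · show (n + 1) • x.a = n • x.a + x.a; exact succ_nsmul _ _
    · show (n + 1) • x.b = n • x.b + x.b; exact succ_nsmul _ _
    · show (n + 1) • x.c = n • x.c + x.c; exact succ_nsmul _ _
  zsmul := fun n x => n • x
  zsmul_zero' x := by
    ext1
    · show (0 : ℤ) • x.a = 0; simp
    · show (0 : ℤ) • x.b = 0; simp
    · show (0 : ℤ) • x.c = 0; simp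
  zsmul_succ' n x := by
    ext1
    · show ((n.succ : ℕ) : ℤ) • x.a = (n : ℤ) • x.a + x.a
      exact SubNegMonoid.zsmul_succ' n x.a
    · show ((n.succ : ℕ) : ℤ) • x.b = (n : ℤ) • x.b + x.b
      exact SubNegMonoid.zsmul_succ' n x.b
    · show ((n.succ : ℕ) : ℤ) • x.c = (n : ℤ) • x.c + x.c
      exact SubNegMonoid.zsmul_succ' n x.c
  zsmul_neg' n x := by
    ext1
    · show (Int.negSucc n) • x.a = -(((n.succ : ℕ) : ℤ) • x.a)
      exact SubNegMonoid.zsmul_neg' n x.a
    · show (Int.negSucc n) • x.b = -(((n.succ : ℕ) : ℤ) • x.b)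
      exact SubNegMonoid.zsmul_neg' n x.b
    · show (Int.negSucc n) • x.c = -(((n.succ : ℕ) : ℤ) • x.c)
      exact SubNegMonoid.zsmul_neg' n x.c

instance : NonUnitalNonAssocCommRing LL where
  left_distrib x y z := by
    ext1
    · simp only [mul_a, add_a, add_b, add_c, cr_add, smul_add, add_smul]; abel
    · simp only [mul_b, add_a, add_b, cr_add]; abel
    · simp [mul_c, add_c]
  right_distrib x y z := by
    ext1
    · simp only [mul_a, add_a, add_b, add_c, add_cr, smul_add, add_smul]; abel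
    · simp only [mul_b, add_a, add_b, add_cr]; abel
    · simp [mul_c, add_c]
  zero_mul x := by
    ext1
    · simp [mul_a, zero_a, zero_b, zero_c, zero_cr]
    · simp [mul_b, zero_a, zero_b, zero_cr]
    · simp [mul_c, zero_c]
  mul_zero x := by
    ext1
    · simp [mul_a, zero_a, zero_b, zero_c, cr_zero]
    · simp [mul_b, zero_a, zero_b, cr_zero]
    · simp [mul_c, zero_c]
  mul_comm x y := by
    ext1
    · simp only [mul_a, cr_comm y.a x.a]; abel
    · simp only [mul_b, cr_comm y.a x.b, cr_comm y.b x.a]; abel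
    · simp [mul_c]

theorem two_eq_zero (u : Fin 3 → ZMod 2) : u + u = 0 := by
  have h : ∀ x : ZMod 2, x + x = 0 := by decide
  ext i; simpa using h (u i)

theorem sq_zero (x : LL) : x * x = 0 := by
  ext1
  · simp only [mul_a, cr_self, zero_a, zero_add]; exact two_eq_zero _
  · simp only [mul_b, zero_b, cr_comm x.b x.a]; exact two_eq_zero _
  · simp [mul_c, zero_c]

theorem exists_cr {u : Fin 3 → ZMod 2} (hu : u ≠ 0) : ∃ s, cr u (cr u s) ≠ 0 := by
  revert u; decide

end LL

open LL

theorem semiprime_LL : IsSemiprimeRing LL := by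
  intro K hK hK2
  -- elements of `S` in `K` vanish
  have key : ∀ u : Fin 3 → ZMod 2, (⟨u, 0, 0⟩ : LL) ∈ K → u = 0 := by
    intro u hu
    by_contra hne
    obtain ⟨s, hs⟩ := exists_cr hne
    have h1 : (⟨u, 0, 0⟩ : LL) * ⟨s, 0, 0⟩ ∈ K := (hK ⟨s, 0, 0⟩ _ hu).2
    have h2 := hK2 _ hu _ h1
    have h3 := congrArg LL.a h2
    simp only [mul_a, mul_b, mul_c, zero_a, smul_zero, zero_smul, add_zero] at h3
    exact hs h3
  rw [eq_bot_iff]
  intro x hx
  rw [AddSubgroup.mem_bot]
  -- first: `c = 0`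
  have hc : x.c = 0 := by
    by_contra hc
    have hc1 : x.c = 1 := by
      have : ∀ z : ZMod 2, z ≠ 0 → z = 1 := by decide
      exact this _ hc
    have h1 : ∀ v : Fin 3 → ZMod 2, x * ⟨0, v, 0⟩ ∈ K := fun v => (hK ⟨0, v, 0⟩ _ hx).2
    have h2 := hK2 _ (h1 ![1, 0, 0]) _ (h1 ![0, 1, 0])
    have h3 := congrArg LL.a h2
    simp only [mul_a, mul_b, mul_c, zero_a, hc1, cr_zero, one_smul, zero_smul, add_zero,
      zero_add] at h3
    revert h3
    decide
  have hb : x.b = 0 := by
    apply key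
    have h1 : (⟨0, 0, 1⟩ : LL) * x ∈ K := (hK ⟨0, 0, 1⟩ _ hx).1
    have h2 : (⟨0, 0, 1⟩ : LL) * x = ⟨x.b, 0, 0⟩ := by
      ext1
      · simp [mul_a, zero_cr]
      · simp [mul_b, zero_cr]
      · simp [mul_c]
    rwa [h2] at h1
  have ha : x.a = 0 := by
    apply key
    have : x = ⟨x.a, 0, 0⟩ := by
      ext1
      · rfl
      · exact hb
      · exact hc
    rwa [← this]
  ext1
  · exact ha
  · exact hb
  · exact hc

/-- The ideal `S[t]/(t^2)` of the example, as a subring. -/
def II : NonUnitalSubring LL where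
  carrier := {x | x.c = 0}
  zero_mem' := rfl
  add_mem' := by
    intro x y hx hy
    show x.c + y.c = 0
    rw [show x.c = 0 from hx, show y.c = 0 from hy]; rfl
  neg_mem' := by
    intro x hx
    show -x.c = 0
    rw [show x.c = 0 from hx]; rfl
  mul_mem' := by
    intro x y _ _
    rfl

/-- There are a semiprime Jordan ring `J` and an ideal `I` of `J` which is not semiprime as a
ring in its own right. -/
theorem result :
    ∃ (J : Type) (_ : NonUnitalNonAssocCommRing J),
      (∀ x y : J, ((x * x) * y) * x = (x * x) * (y * x)) ∧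
      IsSemiprimeRing J ∧
      ∃ I : NonUnitalSubring J, (∀ r : J, ∀ a ∈ I, r * a ∈ I) ∧ ¬ IsSemiprimeRing I := by
  refine ⟨LL, inferInstance, ?_, semiprime_LL, II, ?_, ?_⟩
  · intro x y
    rw [sq_zero, zero_mul, zero_mul, zero_mul]
  · intro r a _
    rfl
  · intro h
    -- the ideal `S t` of `I`
    let K : AddSubgroup II :=
      { carrier := {x | x.1.a = 0}
        zero_mem' := rfl
        add_mem' := by
          intro x y hx hy
          show x.1.a + y.1.a = 0
          rw [show x.1.a = 0 from hx, show y.1.a = 0 from hy, add_zero]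
        neg_mem' := by
          intro x hx
          show -x.1.a = 0
          rw [show x.1.a = 0 from hx, neg_zero] }
    have hcI : ∀ x : II, x.1.c = 0 := fun x => x.2
    have h1 : ∀ r : II, ∀ k ∈ K, r * k ∈ K ∧ k * r ∈ K := by
      intro r k hk
      have hk' : k.1.a = 0 := hk
      constructor
      · show (r.1 * k.1).a = 0
        simp [mul_a, hk', cr_zero, hcI]
      · show (k.1 * r.1).a = 0
        simp [mul_a, hk', zero_cr, hcI]
    have h2 : ∀ a ∈ K, ∀ b ∈ K, a * b = 0 := by
      intro a ha b hb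
      have ha' : a.1.a = 0 := ha
      have hb' : b.1.a = 0 := hb
      apply Subtype.ext
      show a.1 * b.1 = 0
      ext1
      · simp [mul_a, ha', hcI, zero_cr, zero_a]
      · simp [mul_b, ha', hb', zero_cr, cr_zero, zero_b]
      · rfl
    have h3 := h K h1 h2
    have h4 : (⟨⟨0, ![1, 0, 0], 0⟩, rfl⟩ : II) ∈ K := rfl
    rw [h3, AddSubgroup.mem_bot] at h4
    have h5 : (![1, 0, 0] : Fin 3 → ZMod 2) = 0 := congrArg (fun z : II => z.1.b) h4
    exact absurd h5 (by decide)

end Pool.Agent.MP_75529e_al.CharTwo
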