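import Pool.Agent.MP_75529e_al.Ext
import Pool.Agent.MP_75529e_al.Alg

set_option autoImplicit false

/-!
The concrete data: `V` has an orthonormal basis indexed by `ℕ`, `Z` and `Y` are the even and the
odd part of `L ⊗ Λ(V)`, with `L` the cross product Lie algebra.
-/

namespace Pool.Agent.MP_75529e_al

open CliffordAlgebra

universe u

variable (F : Type u) [Field F]

/-- The space `V`. -/
abbrev VV : Type u := ℕ →₀ F

abbrev ZZ : Type u := Fin 3 → Ev F (VV F)
abbrev YY : Type u := Fin 3 → Od F (VV F)

/-- The form with orthonormal basis the standard basis. -/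
noncomputable def dotB : VV F →ₗ[F] VV F →ₗ[F] F :=
  Finsupp.linearCombination F (fun i => (Finsupp.lapply i : VV F →ₗ[F] F))

theorem dotB_single (i : ℕ) (v : VV F) : dotB F (Finsupp.single i 1) v = v i := by
  rw [dotB, Finsupp.linearCombination_single, one_smul, Finsupp.lapply_apply]

theorem dotB_comm (v u : VV F) : dotB F v u = dotB F u v := by
  have h : dotB F = (dotB F).flip := by
    apply Finsupp.lhom_ext'
    intro i
    apply LinearMap.ext_ring
    apply Finsupp.lhom_ext'
    intro j
    apply LinearMap.ext_ring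
    simp only [LinearMap.comp_apply, Finsupp.lsingle_apply, LinearMap.flip_apply, dotB_single,
      Finsupp.single_apply]
    by_cases hij : i = j
    · subst hij; rfl
    · rw [if_neg hij, if_neg (Ne.symm hij)]
  conv_lhs => rw [h]
  rfl

noncomputable def wB : VV F →ₗ[F] ZZ F →ₗ[F] YY F :=
  LinearMap.mk₂ F (fun v z i => ⟨io v * (z i : Ex F (VV F)), io_mul_even v _ (z i).2⟩)
    (by intro v v' z; funext i; apply Subtype.ext; simp [add_mul])
    (by intro r v z; funext i; apply Subtype.ext; simp)
    (by intro v z z'; funext i; apply Subtype.ext; simp [mul_add])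
    (by intro r v z; funext i; apply Subtype.ext; simp)

theorem wB_apply (v : VV F) (z : ZZ F) (i : Fin 3) :
    ((wB F v z i : Od F (VV F)) : Ex F (VV F)) = io v * (z i : Ex F (VV F)) := rfl

noncomputable def cB : VV F →ₗ[F] YY F →ₗ[F] ZZ F :=
  LinearMap.mk₂ F (fun v y i => ⟨co (dotB F v) (y i : Ex F (VV F)), co_odd _ _ (y i).2⟩)
    (by intro v v' z; funext i; apply Subtype.ext; simp)
    (by intro r v z; funext i; apply Subtype.ext; simp)
    (by intro v z z'; funext i; apply Subtype.ext; simp)
    (by intro r v z; funext i; apply Subtype.ext; simp)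

theorem cB_apply (v : VV F) (y : YY F) (i : Fin 3) :
    ((cB F v y i : Ev F (VV F)) : Ex F (VV F)) = co (dotB F v) (y i : Ex F (VV F)) := rfl

noncomputable def mB : YY F →ₗ[F] YY F →ₗ[F] ZZ F :=
  LinearMap.mk₂ F (fun y x i => ⟨(y (i + 1) : Ex F (VV F)) * x (i + 2) - y (i + 2) * x (i + 1),
      Submodule.sub_mem _ (odd_mul_odd _ _ (y _).2 (x _).2) (odd_mul_odd _ _ (y _).2 (x _).2)⟩)
    (by intro v v' z; funext i; apply Subtype.ext; simp [add_mul]; abel)
    (by intro r v z; funext i; apply Subtype.ext; simp [smul_sub])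
    (by intro v z z'; funext i; apply Subtype.ext; simp [mul_add]; abel)
    (by intro r v z; funext i; apply Subtype.ext; simp [smul_sub])

theorem mB_apply (y x : YY F) (i : Fin 3) :
    ((mB F y x i : Ev F (VV F)) : Ex F (VV F)) =
      (y (i + 1) : Ex F (VV F)) * x (i + 2) - y (i + 2) * x (i + 1) := rfl

theorem f11 (i : Fin 3) : i + 1 + 1 = i + 2 := by revert i; decide
theorem f12 (i : Fin 3) : i + 1 + 2 = i := by revert i; decide
theorem f21 (i : Fin 3) : i + 2 + 1 = i := by revert i; decide
theorem f22 (i : Fin 3) : i + 2 + 2 = i + 1 := by revert i; decide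

variable {F}

theorem key1 (v u : VV F) (x : Ex F (VV F)) :
    io v * co (dotB F u) (io v * x) = dotB F v u • (io v * x) := by
  rw [co_io_mul, mul_sub, ← mul_assoc (io v) (io v), io_sq, zero_mul, sub_zero, mul_smul_comm,
    dotB_comm]

theorem key2 (v u : VV F) (x : Ex F (VV F)) :
    co (dotB F v) (io u * co (dotB F v) x) = dotB F v u • co (dotB F v) x := by
  rw [co_io_mul, co_co, mul_zero, sub_zero]

theorem key3 (v u : VV F) (a b : Ex F (VV F)) (ha : a ∈ Ev F (VV F)) (hb : b ∈ Ev F (VV F)) :
    io v * a * (io u * b) - io v * b * (io u * a) = 0 := by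
  rw [mul_assoc, ← mul_assoc a, even_comm a (io u) ha, mul_assoc (io v) b, ← mul_assoc b,
    even_comm b (io u) hb, mul_assoc (io u) a, mul_assoc (io u) b, even_comm a b ha, sub_self]

theorem key4 (v u : VV F) (a b : Ex F (VV F)) (ha : a ∈ Od F (VV F)) (hb : b ∈ Od F (VV F)) :
    co (dotB F v) (io u * (a * b - b * a)) = dotB F v u • (a * b - b * a) -
      (2 : F) • (io u * co (dotB F v) a * b - io u * co (dotB F v) b * a) := by
  have h1 : co (dotB F v) (a * b) = co (dotB F v) a * b - co (dotB F v) b * a := by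
    rw [co_odd_mul _ _ _ ha, even_comm (co (dotB F v) b) a (co_odd _ _ hb)]
  have h2 : co (dotB F v) (b * a) = co (dotB F v) b * a - co (dotB F v) a * b := by
    rw [co_odd_mul _ _ _ hb, even_comm (co (dotB F v) a) b (co_odd _ _ ha)]
  rw [co_io_mul, map_sub, h1, h2]
  simp only [mul_sub, mul_assoc, two_smul]
  abel

theorem key5 (x a b c : Ex F (VV F)) (ha : a ∈ Od F (VV F)) (hb : b ∈ Od F (VV F))
    (hc : c ∈ Od F (VV F)) :
    x * (c * a - a * c) * c - x * (a * b - b * a) * b = 0 := by
  have h1 : c * a * c = 0 := by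
    rw [odd_anti c a hc ha, neg_mul, mul_assoc, odd_sq c hc, mul_zero, neg_zero]
  have h2 : b * a * b = 0 := by
    rw [odd_anti b a hb ha, neg_mul, mul_assoc, odd_sq b hb, mul_zero, neg_zero]
  have h3 : a * c * c = 0 := by rw [mul_assoc, odd_sq c hc, mul_zero]
  have h4 : a * b * b = 0 := by rw [mul_assoc, odd_sq b hb, mul_zero]
  rw [mul_assoc, mul_assoc, sub_mul, sub_mul, h1, h2, h3, h4]
  simp

theorem key6 (v : VV F) (a b : Ex F (VV F)) (ha : a ∈ Ev F (VV F)) :
    io v * a * (io v * b) = 0 := by
  rw [mul_assoc, ← mul_assoc a, even_comm a (io v) ha, mul_assoc (io v) a, ← mul_assoc, io_sq,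
    zero_mul]

/-- The data. -/
noncomputable def DB (F : Type u) [Field F] : Dat F (VV F) (ZZ F) (YY F) where
  dot := dotB F
  w := wB F
  c := cB F
  m := mB F
  dot_comm := dotB_comm F
  m_comm x y := by
    funext i
    apply Subtype.ext
    rw [mB_apply, mB_apply, odd_anti _ _ (x (i + 1)).2 (y (i + 2)).2,
      odd_anti _ _ (x (i + 2)).2 (y (i + 1)).2]
    abel
  h1 v u z := by
    funext i
    apply Subtype.ext
    rw [wB_apply, cB_apply, wB_apply, key1]
    rfl
  h2 v u y := by
    funext i
    apply Subtype.ext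
    rw [cB_apply, wB_apply, cB_apply, key2]
    rfl
  h3 v u z := by
    funext i
    apply Subtype.ext
    rw [mB_apply, wB_apply, wB_apply, wB_apply, wB_apply, key3 _ _ _ _ (z _).2 (z _).2]
    rfl
  h4 v u y := by
    funext i
    apply Subtype.ext
    rw [cB_apply, wB_apply, mB_apply, key4 _ _ _ _ (y _).2 (y _).2]
    rfl
  h5 u y := by
    funext i
    apply Subtype.ext
    rw [mB_apply, wB_apply, wB_apply, mB_apply, mB_apply, f11, f12, f21, f22,
      key5 _ _ _ _ (y _).2 (y _).2 (y _).2]
    rfl
  h6 v z z' := by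
    funext i
    apply Subtype.ext
    rw [mB_apply, wB_apply, wB_apply, wB_apply, wB_apply, key6 _ _ _ (z _).2,
      key6 _ _ _ (z _).2, sub_zero]
    rfl
  h7 v z y := by
    funext i
    apply Subtype.ext
    rw [wB_apply, mB_apply, wB_apply, wB_apply, mul_sub, ← mul_assoc, ← mul_assoc, ← mul_assoc,
      ← mul_assoc, io_sq, zero_mul, zero_mul, zero_mul, zero_mul, sub_zero]
    rfl

end Pool.Agent.MP_75529e_al
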