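import Mathlib

set_option autoImplicit false

/-!
Parity facts on the exterior algebra of a vector space: even elements are central, odd elements
anticommute and have square zero, contractions are antiderivations that change the parity.
-/

namespace Pool.Agent.MP_75529e_al

open CliffordAlgebra

universe u

variable {F : Type u} [Field F] {V : Type u} [AddCommGroup V] [Module F V]

/-- The exterior algebra. -/
abbrev Ex (F V : Type u) [Field F] [AddCommGroup V] [Module F V] : Type u :=
  CliffordAlgebra (0 : QuadraticForm F V)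

/-- The inclusion of vectors. -/
abbrev io (v : V) : Ex F V := ι (0 : QuadraticForm F V) v

/-- Even and odd parts. -/
abbrev Ev (F V : Type u) [Field F] [AddCommGroup V] [Module F V] : Submodule F (Ex F V) :=
  evenOdd (0 : QuadraticForm F V) 0

abbrev Od (F V : Type u) [Field F] [AddCommGroup V] [Module F V] : Submodule F (Ex F V) :=
  evenOdd (0 : QuadraticForm F V) 1

theorem io_sq (v : V) : (io v : Ex F V) * io v = 0 := by
  rw [ι_sq_scalar]; simp

theorem io_anti (v w : V) : (io v : Ex F V) * io w = -(io w * io v) := by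
  have h := io_sq (F := F) (v + w)
  rw [io, map_add, mul_add, add_mul, add_mul, io_sq, io_sq, zero_add, add_zero] at h
  rw [eq_neg_iff_add_eq_zero, add_comm]
  exact h

theorem io_comm_even (v : V) (x : Ex F V) (hx : x ∈ Ev F V) : io v * x = x * io v := by
  induction x, hx using even_induction with
  | algebraMap r => exact (Algebra.commutes r _).symm
  | add x y hx hy ihx ihy => rw [mul_add, add_mul, ihx, ihy]
  | ι_mul_ι_mul m₁ m₂ x hx ih =>
    rw [← mul_assoc, ← mul_assoc, io_anti v m₁, neg_mul, mul_assoc (io m₁) (io v) (io m₂),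
      io_anti v m₂, mul_neg, neg_mul, neg_mul, neg_neg]
    simp only [mul_assoc]
    rw [ih]

theorem io_anti_odd (v : V) (x : Ex F V) (hx : x ∈ Od F V) : io v * x = -(x * io v) := by
  induction x, hx using odd_induction with
  | ι m => exact io_anti v m
  | add x y hx hy ihx ihy => rw [mul_add, add_mul, ihx, ihy, neg_add]
  | ι_mul_ι_mul m₁ m₂ x hx ih =>
    rw [← mul_assoc, ← mul_assoc, io_anti v m₁, neg_mul, mul_assoc (io m₁) (io v) (io m₂),
      io_anti v m₂, mul_neg, neg_mul, neg_mul, neg_neg]
    simp only [mul_assoc]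
    rw [ih]
    simp only [mul_neg]

theorem even_comm (x y : Ex F V) (hx : x ∈ Ev F V) : x * y = y * x := by
  induction y using CliffordAlgebra.induction with
  | algebraMap r => exact (Algebra.commutes r _).symm
  | ι v => exact (io_comm_even v x hx).symm
  | mul a b ha hb => rw [← mul_assoc, ha, mul_assoc, hb, mul_assoc]
  | add a b ha hb => rw [mul_add, add_mul, ha, hb]

theorem odd_anti (x y : Ex F V) (hx : x ∈ Od F V) (hy : y ∈ Od F V) : x * y = -(y * x) := by
  induction y, hy using odd_induction with
  | ι m => rw [io_anti_odd m x hx, neg_neg]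
  | add a b ha hb iha ihb => rw [mul_add, add_mul, iha, ihb, neg_add]
  | ι_mul_ι_mul m₁ m₂ y hy ih =>
    have h : (io m₁ * io m₂ : Ex F V) ∈ Ev F V := ι_mul_ι_mem_evenOdd_zero _ _ _
    rw [← mul_assoc, ← even_comm _ x h, mul_assoc, ih, mul_neg, mul_assoc, mul_assoc, mul_assoc]

theorem odd_sq (x : Ex F V) (hx : x ∈ Od F V) : x * x = 0 := by
  induction x, hx using odd_induction with
  | ι m => exact io_sq m
  | add a b ha hb iha ihb =>
    rw [mul_add, add_mul, add_mul, iha, ihb, odd_anti a b ha hb]
    simp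
  | ι_mul_ι_mul m₁ m₂ x hx ih =>
    have h : (io m₁ * io m₂ : Ex F V) ∈ Ev F V := ι_mul_ι_mem_evenOdd_zero _ _ _
    rw [mul_assoc (io m₁ * io m₂) x, ← mul_assoc x, ← even_comm _ x h, mul_assoc _ x x, ih,
      mul_zero, mul_zero]

theorem io_mul_even (v : V) (x : Ex F V) (hx : x ∈ Ev F V) : io v * x ∈ Od F V := by
  have := evenOdd_mul_le (0 : QuadraticForm F V) 1 0
  rw [add_zero] at this
  exact this (Submodule.mul_mem_mul (ι_mem_evenOdd_one _ v) hx)

theorem io_mul_odd (v : V) (x : Ex F V) (hx : x ∈ Od F V) : io v * x ∈ Ev F V := by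
  have := evenOdd_mul_le (0 : QuadraticForm F V) 1 1
  exact this (Submodule.mul_mem_mul (ι_mem_evenOdd_one _ v) hx)

theorem odd_mul_odd (x y : Ex F V) (hx : x ∈ Od F V) (hy : y ∈ Od F V) : x * y ∈ Ev F V := by
  have := evenOdd_mul_le (0 : QuadraticForm F V) 1 1
  exact this (Submodule.mul_mem_mul hx hy)

theorem even_mul_odd (x y : Ex F V) (hx : x ∈ Ev F V) (hy : y ∈ Od F V) : x * y ∈ Od F V := by
  have := evenOdd_mul_le (0 : QuadraticForm F V) 0 1
  rw [zero_add] at this
  exact this (Submodule.mul_mem_mul hx hy)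

/-- Contraction. -/
abbrev co (d : Module.Dual F V) : Ex F V →ₗ[F] Ex F V := contractLeft d

theorem co_io_mul (d : Module.Dual F V) (v : V) (x : Ex F V) :
    co d (io v * x) = d v • x - io v * co d x := contractLeft_ι_mul d v x

theorem co_co (d : Module.Dual F V) (x : Ex F V) : co d (co d x) = 0 :=
  contractLeft_contractLeft d x

theorem co_even (d : Module.Dual F V) (x : Ex F V) (hx : x ∈ Ev F V) : co d x ∈ Od F V := by
  induction x, hx using even_induction with
  | algebraMap r => rw [co, contractLeft_algebraMap]; exact Submodule.zero_mem _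
  | add x y hx hy ihx ihy => rw [co, map_add]; exact Submodule.add_mem _ ihx ihy
  | ι_mul_ι_mul m₁ m₂ x hx ih =>
    rw [mul_assoc, co_io_mul, co_io_mul]
    refine Submodule.sub_mem _ (Submodule.smul_mem _ _ (io_mul_even _ _ hx)) ?_
    rw [mul_sub]
    refine Submodule.sub_mem _ ?_ ?_
    · exact io_mul_even _ _ (Submodule.smul_mem _ _ hx)
    · exact io_mul_even _ _ (io_mul_odd _ _ ih)

theorem co_odd (d : Module.Dual F V) (x : Ex F V) (hx : x ∈ Od F V) : co d x ∈ Ev F V := by
  induction x, hx using odd_induction with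
  | ι m => rw [co, contractLeft_ι]; exact SetLike.algebraMap_mem_graded _ _
  | add x y hx hy ihx ihy => rw [co, map_add]; exact Submodule.add_mem _ ihx ihy
  | ι_mul_ι_mul m₁ m₂ x hx ih =>
    rw [mul_assoc, co_io_mul, co_io_mul]
    refine Submodule.sub_mem _ (Submodule.smul_mem _ _ (io_mul_odd _ _ hx)) ?_
    rw [mul_sub]
    refine Submodule.sub_mem _ ?_ ?_
    · exact io_mul_odd _ _ (Submodule.smul_mem _ _ hx)
    · exact io_mul_odd _ _ (io_mul_even _ _ ih)

/-- Contraction is an antiderivation. -/
theorem co_odd_mul (d : Module.Dual F V) (x y : Ex F V) (hx : x ∈ Od F V) :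
    co d (x * y) = co d x * y - x * co d y := by
  induction x, hx using odd_induction with
  | ι m =>
    rw [co_io_mul, contractLeft_ι, ← Algebra.smul_def]
  | add a b ha hb iha ihb =>
    rw [add_mul, map_add, map_add, iha, ihb]
    simp only [add_mul]
    abel
  | ι_mul_ι_mul m₁ m₂ x hx ih =>
    rw [mul_assoc, mul_assoc, co_io_mul, co_io_mul, mul_assoc (io m₁) (io m₂) x, co_io_mul,
      co_io_mul, ih]
    simp only [sub_mul, mul_sub, mul_assoc, smul_mul_assoc, mul_smul_comm]
    abel

end Pool.Agent.MP_75529e_al
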