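import Pool.Agent.MP_75529e_al.Conc

set_option autoImplicit false

/-!
Finitely many variables: the filtration of the exterior algebra, and iterated contractions.
-/

namespace Pool.Agent.MP_75529e_al

open CliffordAlgebra

universe u

variable {F : Type u} [Field F]

/-- The exterior algebra of `V`. -/
abbrev EE (F : Type u) [Field F] : Type u := Ex F (VV F)

/-- Basis vectors. -/
noncomputable def ee (F : Type u) [Field F] (n : ℕ) : VV F := Finsupp.single n 1

/-- Multiplication by a basis vector. -/
noncomputable def me (F : Type u) [Field F] (n : ℕ) : EE F →ₗ[F] EE F :=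
  LinearMap.mulLeft F (io (ee F n))

/-- Contraction with a basis vector. -/
noncomputable def ce (F : Type u) [Field F] (n : ℕ) : EE F →ₗ[F] EE F := co (dotB F (ee F n))

theorem me_apply (n : ℕ) (x : EE F) : me F n x = io (ee F n) * x := rfl

theorem ce_me (i n : ℕ) (x : EE F) :
    ce F i (me F n x) = (if n = i then (1 : F) else 0) • x - me F n (ce F i x) := by
  rw [ce, me_apply, co_io_mul, ee, dotB_single, ee, Finsupp.single_apply]
  rfl

theorem ce_me_self (n : ℕ) (x : EE F) : ce F n (me F n x) = x - me F n (ce F n x) := by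
  rw [ce_me, if_pos rfl, one_smul]

theorem ce_me_ne {i n : ℕ} (h : n ≠ i) (x : EE F) : ce F i (me F n x) = -me F n (ce F i x) := by
  rw [ce_me, if_neg h, zero_smul, zero_sub]

theorem me_me (n : ℕ) (x : EE F) : me F n (me F n x) = 0 := by
  rw [me_apply, me_apply, ← mul_assoc, io_sq, zero_mul]

theorem me_anti (i n : ℕ) (x : EE F) : me F i (me F n x) = -me F n (me F i x) := by
  rw [me_apply, me_apply, me_apply, me_apply, ← mul_assoc, ← mul_assoc, io_anti, neg_mul]

theorem ce_one (n : ℕ) (r : F) : ce F n (algebraMap F (EE F) r) = 0 := contractLeft_algebraMap _ _ r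

/-- Elements that involve only the first `n` basis vectors. -/
noncomputable def AA (F : Type u) [Field F] : ℕ → Submodule F (EE F)
  | 0 => LinearMap.range (Algebra.linearMap F (EE F))
  | n + 1 => AA F n ⊔ (AA F n).map (me F n)

theorem AA_succ (n : ℕ) (x : EE F) :
    x ∈ AA F (n + 1) ↔ ∃ b ∈ AA F n, ∃ c ∈ AA F n, b + me F n c = x := by
  rw [AA, Submodule.mem_sup]
  constructor
  · rintro ⟨b, hb, c, hc, rfl⟩
    obtain ⟨c', hc', rfl⟩ := Submodule.mem_map.mp hc
    exact ⟨b, hb, c', hc', rfl⟩
  · rintro ⟨b, hb, c, hc, rfl⟩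
    exact ⟨b, hb, _, Submodule.mem_map_of_mem hc, rfl⟩

theorem AA_le_succ (n : ℕ) : AA F n ≤ AA F (n + 1) := by
  rw [AA]; exact le_sup_left

theorem AA_mono : Monotone (AA F) := monotone_nat_of_le_succ AA_le_succ

theorem me_mem (n : ℕ) : ∀ j < n, ∀ x ∈ AA F n, me F j x ∈ AA F n := by
  induction n with
  | zero => intro j hj; exact absurd hj (Nat.not_lt_zero j)
  | succ n ih =>
    intro j hj x hx
    obtain ⟨b, hb, c, hc, rfl⟩ := (AA_succ n x).mp hx
    rw [map_add]
    rcases Nat.lt_succ_iff_lt_or_eq.mp hj with h | h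
    · rw [me_anti]
      refine Submodule.add_mem _ (AA_le_succ n (ih j h b hb)) (Submodule.neg_mem _ ?_)
      exact (AA_succ n _).mpr ⟨0, Submodule.zero_mem _, _, ih j h c hc, by rw [zero_add]⟩
    · subst h
      rw [me_me, add_zero]
      exact (AA_succ j _).mpr ⟨0, Submodule.zero_mem _, _, hb, by rw [zero_add]⟩

theorem io_mem (v : VV F) : ∀ n, ∀ x ∈ AA F n, ∃ m, io v * x ∈ AA F m := by
  induction v using Finsupp.induction_linear with
  | zero => intro n x _; exact ⟨0, by simp⟩
  | add v w hv hw =>
    intro n x hx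
    obtain ⟨m, hm⟩ := hv n x hx
    obtain ⟨k, hk⟩ := hw n x hx
    refine ⟨max m k, ?_⟩
    rw [io, map_add, add_mul]
    exact Submodule.add_mem _ (AA_mono (le_max_left m k) hm) (AA_mono (le_max_right m k) hk)
  | single j r =>
    intro n x hx
    refine ⟨max n (j + 1), ?_⟩
    have h1 : (Finsupp.single j r : VV F) = r • ee F j := by
      rw [ee, Finsupp.smul_single, smul_eq_mul, mul_one]
    rw [h1, io, map_smul, smul_mul_assoc]
    exact Submodule.smul_mem _ _ (me_mem _ j (lt_of_lt_of_le (Nat.lt_succ_self j)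
      (le_max_right _ _)) x (AA_mono (le_max_left _ _) hx))

theorem exists_mem (x : EE F) : ∃ n, x ∈ AA F n := by
  induction x using CliffordAlgebra.left_induction with
  | algebraMap r => exact ⟨0, ⟨r, rfl⟩⟩
  | add x y hx hy =>
    obtain ⟨m, hm⟩ := hx
    obtain ⟨k, hk⟩ := hy
    exact ⟨max m k, Submodule.add_mem _ (AA_mono (le_max_left m k) hm)
      (AA_mono (le_max_right m k) hk)⟩
  | ι_mul x v hx =>
    obtain ⟨n, hn⟩ := hx
    exact io_mem v n x hn

theorem exists_mem_fin (x : Fin 3 → EE F) : ∃ n, ∀ i, x i ∈ AA F n := by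
  choose n hn using fun i => exists_mem (x i)
  refine ⟨max (n 0) (max (n 1) (n 2)), fun i => AA_mono ?_ (hn i)⟩
  fin_cases i
  · exact le_max_left _ _
  · exact (le_max_left _ _).trans (le_max_right _ _)
  · exact (le_max_right _ _).trans (le_max_right _ _)

theorem ce_zero (n : ℕ) : ∀ i, n ≤ i → ∀ x ∈ AA F n, ce F i x = 0 := by
  induction n with
  | zero =>
    rintro i _ _ ⟨r, rfl⟩
    exact ce_one i r
  | succ n ih =>
    intro i hi x hx
    obtain ⟨b, hb, c, hc, rfl⟩ := (AA_succ n x).mp hx
    rw [map_add, ce_me_ne (by omega), ih i (by omega) b hb, ih i (by omega) c hc, map_zero,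
      neg_zero, add_zero]

/-- Iterated contractions of a nonzero vector reach a nonzero scalar vector. -/
theorem exists_scalars (n : ℕ) : ∀ x : Fin 3 → EE F, (∀ i, x i ∈ AA F n) → x ≠ 0 →
    ∃ l : List ℕ, (∀ j ∈ l, j < n) ∧ ∃ s : Fin 3 → F, s ≠ 0 ∧
      ∀ i, l.foldl (fun t j => ce F j t) (x i) = algebraMap F (EE F) (s i) := by
  induction n with
  | zero =>
    intro x hx hne
    choose s hs using hx
    refine ⟨[], by simp, s, ?_, fun i => (hs i).symm⟩
    rintro rfl
    apply hne
    funext i
    rw [← hs i]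
    simp
  | succ n ih =>
    intro x hx hne
    have h1 := fun i => (AA_succ n (x i)).mp (hx i)
    choose b hb c hc hbc using h1
    have hce : ∀ i, ce F n (x i) = c i := by
      intro i
      rw [← hbc i, map_add, ce_me_self, ce_zero n n le_rfl _ (hb i), ce_zero n n le_rfl _ (hc i),
        map_zero, sub_zero, zero_add]
    by_cases h0 : c = 0
    · have hxb : ∀ i, x i ∈ AA F n := by
        intro i
        rw [← hbc i, h0, Pi.zero_apply, map_zero, add_zero]
        exact hb i
      obtain ⟨l, hl, s, hs, h2⟩ := ih x hxb hne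
      exact ⟨l, fun j hj => (hl j hj).trans (Nat.lt_succ_self n), s, hs, h2⟩
    · obtain ⟨l, hl, s, hs, h2⟩ := ih c hc h0
      refine ⟨n :: l, ?_, s, hs, ?_⟩
      · intro j hj
        rcases List.mem_cons.mp hj with h | h
        · rw [h]; exact Nat.lt_succ_self n
        · exact (hl j h).trans (Nat.lt_succ_self n)
      · intro i
        rw [List.foldl_cons, hce i]
        exact h2 i

/-- Products of basis vectors. -/
noncomputable def ep (F : Type u) [Field F] (L : List ℕ) : EE F :=
  (L.map (fun n => io (ee F n))).prod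

theorem ep_nil : ep F [] = 1 := rfl

theorem ep_cons (n : ℕ) (L : List ℕ) : ep F (n :: L) = me F n (ep F L) := by
  rw [ep, List.map_cons, List.prod_cons]; rfl

theorem ep_append (L L' : List ℕ) : ep F (L ++ L') = ep F L * ep F L' := by
  rw [ep, List.map_append, List.prod_append]; rfl

theorem ce_ep (j : ℕ) (L : List ℕ) (h : j ∉ L) (x : EE F) :
    ce F j (ep F L * x) = ((-1 : ℤ) ^ L.length) • (ep F L * ce F j x) := by
  induction L with
  | nil => rw [ep_nil, one_mul, one_mul, List.length_nil, pow_zero, one_smul]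
  | cons n L ih =>
    have h1 : n ≠ j := fun h' => h (by rw [h']; exact List.mem_cons_self)
    have h2 : j ∉ L := fun h' => h (List.mem_cons_of_mem _ h')
    rw [ep_cons, me_apply, mul_assoc, ← me_apply, ce_me_ne h1, ih h2, List.length_cons, pow_succ,
      mul_smul, mul_assoc, ← me_apply, map_zsmul]
    simp

theorem ep_ne_zero (L : List ℕ) (h : L.Nodup) : ep F L ≠ 0 := by
  induction L with
  | nil => rw [ep_nil]; exact one_ne_zero
  | cons n L ih =>
    intro h0
    have h1 := List.nodup_cons.mp h
    have h2 := congrArg (ce F n) h0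
    rw [ep_cons, ce_me_self, map_zero] at h2
    have h3 : ce F n (ep F L) = 0 := by
      have := ce_ep (F := F) n L h1.1 1
      rw [mul_one] at this
      rw [this]
      have h4 : ce F n (1 : EE F) = 0 := contractLeft_one _ _
      rw [h4, mul_zero, smul_zero]
    rw [h3, map_zero, sub_zero] at h2
    exact ih h1.2 h2

end Pool.Agent.MP_75529e_al
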