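import Pool.Agent.MP_75529e_al.Filt

set_option autoImplicit false

/-!
Nonzero ideals of the algebra have nonzero products.
-/

namespace Pool.Agent.MP_75529e_al

open CliffordAlgebra

universe u

variable {F : Type u} [Field F]

/-- The algebra. -/
abbrev J0 (F : Type u) [Field F] : Type u := JJ (DB F)

/-- Elements of the odd component. -/
noncomputable def oy (y : YY F) : J0 F := JJ.mk 0 0 0 y

/-- Elements of the even component. -/
noncomputable def oz (z : ZZ F) : J0 F := JJ.mk 0 0 z 0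

/-- Elements of `V`. -/
noncomputable def ov (v : VV F) : J0 F := JJ.mk 0 v 0 0

theorem ov_oy (v : VV F) (y : YY F) : ov v * oy y = oz (cB F v y) := by
  ext1
  · show (0 : F) * 0 + dotB F v 0 = 0
    simp
  · show (0 : F) • (0 : VV F) + (0 : F) • v = 0
    simp
  · show (0 : F) • (0 : ZZ F) + (0 : F) • (0 : ZZ F) + cB F v y + cB F 0 0 + mB F 0 y = cB F v y
    simp
  · show (0 : F) • y + (0 : F) • (0 : YY F) + wB F v 0 + wB F 0 0 = 0
    simp

theorem ov_oz (v : VV F) (z : ZZ F) : ov v * oz z = oy (wB F v z) := by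
  ext1
  · show (0 : F) * 0 + dotB F v 0 = 0
    simp
  · show (0 : F) • (0 : VV F) + (0 : F) • v = 0
    simp
  · show (0 : F) • z + (0 : F) • (0 : ZZ F) + cB F v 0 + cB F 0 0 + mB F 0 0 = 0
    simp
  · show (0 : F) • (0 : YY F) + (0 : F) • (0 : YY F) + wB F v z + wB F 0 0 = wB F v z
    simp

theorem oy_oy (x y : YY F) : oy x * oy y = oz (mB F x y) := by
  ext1
  · show (0 : F) * 0 + dotB F 0 0 = 0
    simp
  · show (0 : F) • (0 : VV F) + (0 : F) • (0 : VV F) = 0
    simp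
  · show (0 : F) • (0 : ZZ F) + (0 : F) • (0 : ZZ F) + cB F 0 y + cB F 0 x + mB F x y = mB F x y
    simp
  · show (0 : F) • y + (0 : F) • x + wB F 0 0 + wB F 0 0 = 0
    simp

theorem oy_zsmul (n : ℤ) (y : YY F) : oy (n • y) = n • oy y := by
  let f : YY F →+ J0 F :=
    { toFun := oy
      map_zero' := rfl
      map_add' := by
        intro x y
        ext1
        · show (0 : F) = 0 + 0
          rw [add_zero]
        · show (0 : VV F) = 0 + 0
          rw [add_zero]
        · show (0 : ZZ F) = 0 + 0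
          rw [add_zero]
        · rfl }
  exact map_zsmul f n y

theorem oz_inj {z : ZZ F} (h : oz z = 0) : z = 0 := congrArg JJ.z h
theorem oy_inj {y : YY F} (h : oy y = 0) : y = 0 := congrArg JJ.y h

/-- A constant vector times an even element. -/
noncomputable def onez (F : Type u) [Field F] : ZZ F := fun _ => ⟨1, SetLike.GradedOne.one_mem⟩

theorem mul_onez (k : J0 F) : oz (onez F) * k = JJ.mk 0 0 (k.a • onez F) (wB F k.v (onez F)) := by
  ext1
  · show (0 : F) * k.a + dotB F 0 k.v = 0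
    simp
  · show (0 : F) • k.v + k.a • (0 : VV F) = 0
    simp
  · show (0 : F) • k.z + k.a • onez F + cB F 0 k.y + cB F k.v 0 + mB F 0 k.y = k.a • onez F
    simp
  · show (0 : F) • k.y + k.a • (0 : YY F) + wB F 0 k.z + wB F k.v (onez F) =
      wB F k.v (onez F)
    simp

theorem ov_mk (v : VV F) (z : ZZ F) (y : YY F) :
    ov v * JJ.mk 0 0 z y = (JJ.mk 0 0 (cB F v y) (wB F v z) : J0 F) := by
  ext1
  · show (0 : F) * 0 + dotB F v 0 = 0
    simp
  · show (0 : F) • (0 : VV F) + (0 : F) • v = 0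
    simp
  · show (0 : F) • z + (0 : F) • (0 : ZZ F) + cB F v y + cB F 0 0 + mB F 0 y = cB F v y
    simp
  · show (0 : F) • y + (0 : F) • (0 : YY F) + wB F v z + wB F 0 0 = wB F v z
    simp

theorem mk_eta (k : J0 F) (ha : k.a = 0) (hv : k.v = 0) : k = JJ.mk 0 0 k.z k.y := by
  ext1
  · exact ha
  · exact hv
  · rfl
  · rfl

theorem io_inj (v : VV F) (h : (io v : EE F) = 0) : v = 0 := by
  ext n
  have h1 := congrArg (ce F n) h
  rw [ce, co, contractLeft_ι, map_zero, ee, dotB_single] at h1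
  exact (algebraMap F (EE F)).injective (by rw [h1, Finsupp.zero_apply, map_zero])

theorem me_inj {n : ℕ} {x : EE F} (hx : ce F n x = 0) (h : me F n x = 0) : x = 0 := by
  have h1 := congrArg (ce F n) h
  rwa [ce_me_self, hx, map_zero, map_zero, sub_zero] at h1

theorem ce_even_zero (n : ℕ) (z : ZZ F) (hn : ∀ i, ce F n (z i : EE F) = 0)
    (h : wB F (ee F n) z = 0) : z = 0 := by
  funext i
  apply Subtype.ext
  apply me_inj (hn i)
  rw [me_apply, ← wB_apply, h]
  rfl

/-- Every nonzero ideal contains a nonzero element of the odd component. -/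
theorem exists_oy (K : AddSubgroup (J0 F)) (hK : ∀ r, ∀ k ∈ K, r * k ∈ K) (k : J0 F) (hk : k ∈ K)
    (h0 : k ≠ 0) : ∃ y : YY F, y ≠ 0 ∧ oy y ∈ K := by
  by_cases ha : k.a = 0
  · by_cases hv : k.v = 0
    · have hk' := mk_eta k ha hv
      by_cases hz : k.z = 0
      · refine ⟨k.y, ?_, ?_⟩
        · intro hy
          apply h0
          rw [hk', hz, hy]
          rfl
        · rw [hz] at hk'
          rw [hk'] at hk
          exact hk
      · obtain ⟨n, hn⟩ := exists_mem_fin (fun i => (k.y i : EE F))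
        obtain ⟨n', hn'⟩ := exists_mem_fin (fun i => (k.z i : EE F))
        have h1 := hK (ov (ee F (max n n'))) k hk
        rw [hk', ov_mk] at h1
        have h2 : cB F (ee F (max n n')) k.y = 0 := by
          funext i
          apply Subtype.ext
          rw [cB_apply]
          exact ce_zero n _ (le_max_left _ _) _ (hn i)
        rw [h2] at h1
        refine ⟨_, ?_, h1⟩
        intro h3
        exact hz (ce_even_zero (max n n') k.z
          (fun i => ce_zero n' _ (le_max_right _ _) _ (hn' i)) h3)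
    · have h1 := hK (oz (onez F)) k hk
      rw [mul_onez, ha, zero_smul] at h1
      refine ⟨_, ?_, h1⟩
      intro h2
      apply hv
      apply io_inj
      have h3 := congrArg (fun y : YY F => (y 0 : EE F)) h2
      have h4 : ((wB F k.v (onez F) 0 : Od F (VV F)) : EE F) = io k.v := mul_one _
      exact h4.symm.trans h3
  · obtain ⟨n, hn⟩ := Infinite.exists_notMem_finset k.v.support
    have hn' : k.v n = 0 := Finsupp.notMem_support_iff.mp hn
    have h1 := hK (ov (ee F n)) _ (hK (oz (onez F)) k hk)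
    rw [mul_onez, ov_mk] at h1
    have h2 : cB F (ee F n) (wB F k.v (onez F)) = 0 := by
      funext i
      apply Subtype.ext
      rw [cB_apply, wB_apply, co_io_mul, ee, dotB_single, hn', zero_smul, zero_sub]
      have h3 : co (dotB F (Finsupp.single n 1)) ((onez F i : Ev F (VV F)) : EE F) = 0 :=
        contractLeft_one _ _
      rw [h3, mul_zero, neg_zero]
      rfl
    rw [h2] at h1
    refine ⟨_, ?_, h1⟩
    intro h3
    rw [map_smul, smul_eq_zero] at h3
    rcases h3 with h3 | h3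
    · exact ha h3
    · have h5 := ce_even_zero n (onez F) (fun i => contractLeft_one _ _) h3
      have h6 := congrArg (fun z : ZZ F => (z 0 : EE F)) h5
      exact one_ne_zero (α := EE F) h6

/-- The elements of `K` of the form `ep L * x` with `L` a list of fresh indices. -/
def GG (K : AddSubgroup (J0 F)) (M : ℕ) (x : Fin 3 → EE F) : Prop :=
  ∃ L : List ℕ, (∀ N ∈ L, M ≤ N) ∧ L.Nodup ∧ ∃ y : YY F, (∀ i, (y i : EE F) = ep F L * x i) ∧
    oy y ∈ K

theorem exists_fresh (M : ℕ) (L : List ℕ) : ∃ N, M ≤ N ∧ N ∉ L := by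
  obtain ⟨N, hN⟩ := Infinite.exists_notMem_finset (L.toFinset ∪ Finset.range M)
  rw [Finset.mem_union, not_or, List.mem_toFinset, Finset.mem_range, not_lt] at hN
  exact ⟨N, hN.2, hN.1⟩

theorem GG_step (K : AddSubgroup (J0 F)) (hK : ∀ r, ∀ k ∈ K, r * k ∈ K) (M j : ℕ) (hj : j < M)
    (x : Fin 3 → EE F) (h : GG K M x) : GG K M (fun i => ce F j (x i)) := by
  obtain ⟨L, hL, hnd, y, hy, hyK⟩ := h
  obtain ⟨N, hMN, hNL⟩ := exists_fresh M L
  have h1 := hK (ov (ee F N)) _ (hK (ov (ee F j)) _ hyK)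
  rw [ov_oy, ov_oz] at h1
  have h2 := K.zsmul_mem h1 ((-1 : ℤ) ^ L.length)
  refine ⟨N :: L, ?_, List.nodup_cons.mpr ⟨hNL, hnd⟩,
    ((-1 : ℤ) ^ L.length) • wB F (ee F N) (cB F (ee F j) y), ?_, ?_⟩
  · intro n hn
    rcases List.mem_cons.mp hn with h | h
    · rw [h]; exact hMN
    · exact hL n h
  · intro i
    have h3 : ce F j (y i : EE F) = ((-1 : ℤ) ^ L.length) • (ep F L * ce F j (x i)) := by
      rw [hy i]
      exact ce_ep j L (fun h' => absurd (hL j h') (not_le.mpr hj)) (x i)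
    have h4 : ((wB F (ee F N) (cB F (ee F j) y) i : Od F (VV F)) : EE F) =
        me F N (ce F j (y i : EE F)) := rfl
    have h5 : ((((-1 : ℤ) ^ L.length) • wB F (ee F N) (cB F (ee F j) y)) i : Od F (VV F)) =
        ((-1 : ℤ) ^ L.length) • (wB F (ee F N) (cB F (ee F j) y) i) := rfl
    rw [h5, AddSubgroupClass.coe_zsmul, h4, h3, map_zsmul, smul_smul, ← mul_pow, neg_one_mul,
      neg_neg, one_pow, one_smul, ep_cons, me_apply, me_apply, mul_assoc]
  · rw [oy_zsmul]; exact h2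

theorem GG_iter (K : AddSubgroup (J0 F)) (hK : ∀ r, ∀ k ∈ K, r * k ∈ K) (M : ℕ) (l : List ℕ) :
    ∀ x : Fin 3 → EE F, (∀ j ∈ l, j < M) → GG K M x →
    GG K M (fun i => l.foldl (fun t j => ce F j t) (x i)) := by
  induction l with
  | nil => intro x _ h; exact h
  | cons j l ih =>
    intro x hl h
    have h1 := GG_step K hK M j (hl j List.mem_cons_self) x h
    exact ih _ (fun i hi => hl i (List.mem_cons_of_mem _ hi)) h1

/-- Pure elements of an ideal. -/
def Pure (K : AddSubgroup (J0 F)) (L : List ℕ) (s : Fin 3 → F) : Prop :=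
  ∃ y : YY F, (∀ i, (y i : EE F) = s i • ep F L) ∧ oy y ∈ K

theorem exists_pure (K : AddSubgroup (J0 F)) (hK : ∀ r, ∀ k ∈ K, r * k ∈ K) (hne : K ≠ ⊥)
    (M : ℕ) : ∃ L : List ℕ, (∀ N ∈ L, M ≤ N) ∧ L.Nodup ∧ ∃ s : Fin 3 → F, s ≠ 0 ∧
      Pure K L s := by
  obtain ⟨⟨k, hk⟩, hk0'⟩ := AddSubgroup.ne_bot_iff_exists_ne_zero.mp hne
  have hk0 : k ≠ 0 := fun h => hk0' (Subtype.ext h)
  obtain ⟨y, hy0, hyK⟩ := exists_oy K hK k hk hk0
  obtain ⟨n, hn⟩ := exists_mem_fin (fun i => (y i : EE F))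
  have hy1 : (fun i => (y i : EE F)) ≠ 0 := by
    intro h
    apply hy0
    funext i
    apply Subtype.ext
    exact congrFun h i
  obtain ⟨l, hl, s, hs, h1⟩ := exists_scalars n _ hn hy1
  have h2 : GG K (max n M) (fun i => (y i : EE F)) :=
    ⟨[], by simp, List.nodup_nil, y, fun i => by rw [ep_nil, one_mul], hyK⟩
  obtain ⟨L, hL, hnd, y', hy', hyK'⟩ := GG_iter K hK (max n M) l _
    (fun j hj => lt_of_lt_of_le (hl j hj) (le_max_left _ _)) h2
  refine ⟨L, fun N hN => (le_max_right n M).trans (hL N hN), hnd, s, hs, y', ?_, hyK'⟩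
  intro i
  rw [hy' i]
  show ep F L * l.foldl (fun t j => ce F j t) (y i : EE F) = _
  rw [h1 i, ← Algebra.commutes, ← Algebra.smul_def]

/-- The cross product. -/
def cr (s t : Fin 3 → F) : Fin 3 → F := fun i => s (i + 1) * t (i + 2) - s (i + 2) * t (i + 1)

def dt (s t : Fin 3 → F) : F := s 0 * t 0 + s 1 * t 1 + s 2 * t 2

theorem cr_cr (a b c : Fin 3 → F) (i : Fin 3) : cr (cr a b) c i = b i * dt a c - a i * dt b c := by
  simp only [cr, dt, f11, f12, f21, f22]
  fin_cases i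
  · show (a 2 * b 0 - a 0 * b 2) * c 2 - (a 0 * b 1 - a 1 * b 0) * c 1 =
      b 0 * (a 0 * c 0 + a 1 * c 1 + a 2 * c 2) - a 0 * (b 0 * c 0 + b 1 * c 1 + b 2 * c 2)
    ring
  · show (a 0 * b 1 - a 1 * b 0) * c 0 - (a 1 * b 2 - a 2 * b 1) * c 2 =
      b 1 * (a 0 * c 0 + a 1 * c 1 + a 2 * c 2) - a 1 * (b 0 * c 0 + b 1 * c 1 + b 2 * c 2)
    ring
  · show (a 1 * b 2 - a 2 * b 1) * c 1 - (a 2 * b 0 - a 0 * b 2) * c 0 =
      b 2 * (a 0 * c 0 + a 1 * c 1 + a 2 * c 2) - a 2 * (b 0 * c 0 + b 1 * c 1 + b 2 * c 2)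
    ring

theorem exists_cr (s t : Fin 3 → F) (hs : s ≠ 0) (ht : t ≠ 0) :
    ∃ a : Fin 3 → F, cr (cr a s) t ≠ 0 := by
  obtain ⟨i, hi⟩ := Function.ne_iff.mp hs
  obtain ⟨j, hj⟩ := Function.ne_iff.mp ht
  rw [Pi.zero_apply] at hi hj
  by_cases h : dt s t = 0
  · refine ⟨Pi.single j 1, ?_⟩
    intro h0
    have h1 := congrFun h0 i
    rw [cr_cr, h, mul_zero, sub_zero, Pi.zero_apply] at h1
    have h2 : dt (Pi.single j 1) t = t j := by
      fin_cases j <;> simp [dt]
    rw [h2] at h1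
    exact (mul_ne_zero hi hj) h1
  · by_cases h3 : t 0 = 0
    · refine ⟨Pi.single 0 1, ?_⟩
      intro h0
      have h1 := congrFun h0 0
      have h2 : dt (Pi.single 0 1) t = 0 := by
        simp [dt, h3]
      rw [cr_cr, h2, Pi.single_eq_same, mul_zero, zero_sub, one_mul, Pi.zero_apply,
        neg_eq_zero] at h1
      exact h h1
    · refine ⟨![t 1, -t 0, 0], ?_⟩
      intro h0
      have h1 := congrFun h0 1
      have h2 : dt ![t 1, -t 0, 0] t = 0 := by
        simp [dt]; ring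
      rw [cr_cr, h2, mul_zero, zero_sub, Pi.zero_apply, neg_eq_zero] at h1
      have h4 : (![t 1, -t 0, 0] : Fin 3 → F) 1 = -t 0 := rfl
      rw [h4] at h1
      rcases mul_eq_zero.mp h1 with h5 | h5
      · exact h3 (neg_eq_zero.mp h5)
      · exact h h5

/-- A pure element built on a single basis vector. -/
noncomputable def py (s : Fin 3 → F) (n : ℕ) : YY F :=
  fun i => ⟨s i • io (ee F n), Submodule.smul_mem _ _ (ι_mem_evenOdd_one _ _)⟩

theorem smul_mul_sub (p q r t : F) (x y : EE F) :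
    (p • x) * (q • y) - (r • x) * (t • y) = (p * q - r * t) • (x * y) := by
  rw [smul_mul_smul_comm, smul_mul_smul_comm, sub_smul]

theorem pure_step (K : AddSubgroup (J0 F)) (hK : ∀ r, ∀ k ∈ K, r * k ∈ K) (L : List ℕ)
    (s a : Fin 3 → F) (N N' : ℕ) (h : Pure K L s) : Pure K (N' :: N :: L) (cr a s) := by
  obtain ⟨y, hy, hyK⟩ := h
  have h1 := hK (ov (ee F N')) _ (hK (oy (py a N)) _ hyK)
  rw [oy_oy, ov_oz] at h1
  refine ⟨_, ?_, h1⟩
  intro i
  rw [wB_apply, mB_apply, hy, hy]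
  show io (ee F N') * ((a (i + 1) • io (ee F N)) * (s (i + 2) • ep F L) -
    (a (i + 2) • io (ee F N)) * (s (i + 1) • ep F L)) = _
  rw [smul_mul_sub, mul_smul_comm, ep_cons, ep_cons]
  rfl

/-- The product of two nonzero ideals is nonzero. -/
theorem prime (K K' : AddSubgroup (J0 F)) (hK : ∀ r, ∀ k ∈ K, r * k ∈ K)
    (hK' : ∀ r, ∀ k ∈ K', r * k ∈ K') (h : ∀ x ∈ K, ∀ y ∈ K', x * y = 0) : K = ⊥ ∨ K' = ⊥ := by
  by_contra hcon
  rw [not_or] at hcon
  obtain ⟨L', _, hnd', s', hs', hp'⟩ := exists_pure K' hK' hcon.2 0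
  obtain ⟨M, hM⟩ : ∃ M, ∀ N ∈ L', N < M := by
    refine ⟨L'.sum + 1, fun N hN => ?_⟩
    exact Nat.lt_succ_of_le (List.single_le_sum (by simp) N hN)
  obtain ⟨L, hL, hnd, s, hs, hp⟩ := exists_pure K hK hcon.1 M
  obtain ⟨a, ha⟩ := exists_cr s s' hs hs'
  obtain ⟨N, hN, hNL⟩ := exists_fresh M L
  obtain ⟨N', hN', hNL'⟩ := exists_fresh M (N :: L)
  obtain ⟨y, hy, hyK⟩ := pure_step K hK L s a N N' hp
  obtain ⟨y', hy', hyK'⟩ := hp'
  have h1 := h _ hyK _ hyK'
  rw [oy_oy] at h1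
  have h2 := oz_inj h1
  have hnd2 : ((N' :: N :: L) ++ L').Nodup := by
    rw [List.nodup_append]
    refine ⟨List.nodup_cons.mpr ⟨hNL', List.nodup_cons.mpr ⟨hNL, hnd⟩⟩, hnd', ?_⟩
    intro n hn n' hn' hnn
    have h3 : M ≤ n := by
      rcases List.mem_cons.mp hn with h4 | h4
      · rw [h4]; exact hN'
      · rcases List.mem_cons.mp h4 with h5 | h5
        · rw [h5]; exact hN
        · exact hL n h5
    have h4 := hM n' hn'
    omega
  apply ha
  funext i
  have h3 := congrArg (fun z : ZZ F => (z i : EE F)) h2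
  simp only [mB_apply] at h3
  rw [hy, hy, hy', hy', smul_mul_sub, ← ep_append] at h3
  have h4 : (((0 : ZZ F) i : Ev F (VV F)) : EE F) = 0 := rfl
  rw [h4, smul_eq_zero] at h3
  exact h3.resolve_right (ep_ne_zero _ hnd2)

end Pool.Agent.MP_75529e_al
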